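import Pool.Agent.Helper79.EK3.Phi
import Pool.Agent.Helper46.EK.E1d
import Pool.Agent.Helper67.EK.E1c
import Pool.Agent.Helper84.EK.Centre

/-!
EK3 (a), part 3: the linear input on the centre line,
`2 ∫ (1 - Re X) dξ ≤ (1 + δ) log (‖N a‖ / (1 - a²)) + C`.
-/

set_option autoImplicit false

open Complex MeasureTheory Metric Set Filter Topology
open scoped Real ENNReal ComplexConjugate NNReal

namespace Pool.Agent.Helper79.EK3

open Pool.Agent.Helper39.Area Pool.Agent.Helper39.EK Pool.Agent.Helper52.EK Pool.Agent.Helper86.EK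

theorem pt_re (ξ η : ℝ) : (pt ξ η).re = ξ := by simp [pt]

theorem pt_im (ξ η : ℝ) : (pt ξ η).im = η := by simp [pt]

theorem hasDerivAt_pt (ξ η : ℝ) : HasDerivAt (fun t : ℝ => pt t η) 1 ξ := by
  have h : HasDerivAt (fun t : ℝ => (t:ℂ) + (η:ℂ) * I) 1 ξ :=
    (Complex.ofRealCLM.hasDerivAt (x := ξ)).add_const _
  exact h

/-- `Φ` moves slowly along the centre line -/
theorem horiz {Φ Φ' : ℂ → ℂ} {B : ℝ} (h1 : ∀ ω : ℂ, 0 < ω.im → ω.im < π → HasDerivAt Φ (Φ' ω) ω)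
    (h2 : ∀ ω : ℂ, 0 < ω.im → ω.im < π → ‖Φ' ω‖ * Real.sin ω.im ≤ B) (x y : ℝ) :
    ‖Φ (pt y (π / 2)) - Φ (pt x (π / 2))‖ ≤ B * |y - x| := by
  have hπ := Real.pi_pos
  have hd : ∀ t ∈ (univ : Set ℝ), HasDerivWithinAt (fun t : ℝ => Φ (pt t (π / 2)))
      (Φ' (pt t (π / 2))) univ t := by
    intro t _
    have h3 := h1 (pt t (π / 2)) (by rw [pt_im]; linarith) (by rw [pt_im]; linarith)
    have h4 := h3.comp_of_eq t (hasDerivAt_pt t (π / 2)) rfl
    rw [mul_one] at h4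
    exact h4.hasDerivWithinAt
  have hb : ∀ t ∈ (univ : Set ℝ), ‖Φ' (pt t (π / 2))‖ ≤ B := by
    intro t _
    have h3 := h2 (pt t (π / 2)) (by rw [pt_im]; linarith) (by rw [pt_im]; linarith)
    rwa [pt_im, Real.sin_pi_div_two, mul_one] at h3
  have := convex_univ.norm_image_sub_le_of_norm_hasDerivWithin_le hd hb (mem_univ x) (mem_univ y)
  rwa [Real.norm_eq_abs] at this

theorem kap_re {a : ℝ} (h0 : 0 < a) (h1 : a < 1) {ξ η : ℝ} (hx : Real.log (tau a) + 1 ≤ ξ)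
    (hx2 : ξ ≤ -1) :
    1 - (kap a (pt ξ η)).re ≤ 12 * Real.exp (ξ / 2) + 4 * Real.exp ((Real.log (tau a) - ξ) / 2) := by
  have h3 := Pool.Agent.Helper46.EK.kap_bound h0 h1 (η := η) hx hx2
  have hτ := tau_pos h0 h1
  have h4 : 1 - (kap a (pt ξ η)).re ≤ ‖kap a (pt ξ η) - 1‖ := by
    have := Complex.abs_re_le_norm (kap a (pt ξ η) - 1)
    rw [Complex.sub_re, Complex.one_re] at this
    have h5 := neg_abs_le ((kap a (pt ξ η)).re - 1)
    linarith
  refine h4.trans ?_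
  apply le_of_sq_le_sq _ (by positivity)
  have e1 : Real.exp (ξ / 2) ^ 2 = Real.exp ξ := by
    rw [← Real.exp_nat_mul]; congr 1; push_cast; ring
  have e2 : Real.exp ((Real.log (tau a) - ξ) / 2) ^ 2 = tau a * Real.exp (-ξ) := by
    rw [← Real.exp_nat_mul]
    have : ((2:ℕ):ℝ) * ((Real.log (tau a) - ξ) / 2) = Real.log (tau a) + -ξ := by push_cast; ring
    rw [this, Real.exp_add, Real.exp_log hτ]
  have p1 := Real.exp_pos (ξ / 2)
  have p2 := Real.exp_pos ((Real.log (tau a) - ξ) / 2)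
  nlinarith [mul_pos p1 p2]

theorem int_exp_half {x₁ x₂ L : ℝ} (h1 : L + 1 ≤ x₁) (h12 : x₁ ≤ x₂) (h2 : x₂ ≤ -1) :
    ∫ ξ in x₁..x₂, (12 * Real.exp (ξ / 2) + 4 * Real.exp ((L - ξ) / 2)) ≤ 32 := by
  have hd : ∀ ξ ∈ uIcc x₁ x₂, HasDerivAt (fun ξ : ℝ => 24 * Real.exp (ξ / 2) -
      8 * Real.exp ((L - ξ) / 2)) (12 * Real.exp (ξ / 2) + 4 * Real.exp ((L - ξ) / 2)) ξ := by
    intro ξ _
    have a1 : HasDerivAt (fun ξ : ℝ => ξ / 2) (1 / 2) ξ := (hasDerivAt_id ξ).div_const 2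
    have a2 : HasDerivAt (fun ξ : ℝ => (L - ξ) / 2) (-1 / 2) ξ :=
      ((hasDerivAt_id ξ).const_sub L).div_const 2
    have a3 := (a1.exp.const_mul 24).sub (a2.exp.const_mul 8)
    have a4 : 12 * Real.exp (ξ / 2) + 4 * Real.exp ((L - ξ) / 2) =
        24 * (Real.exp (ξ / 2) * (1 / 2)) - 8 * (Real.exp ((L - ξ) / 2) * (-1 / 2)) := by ring
    rw [a4]
    exact a3
  rw [intervalIntegral.integral_eq_sub_of_hasDerivAt hd
    ((by fun_prop : Continuous fun ξ : ℝ => 12 * Real.exp (ξ / 2) +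
      4 * Real.exp ((L - ξ) / 2)).intervalIntegrable _ _)]
  have b1 : Real.exp (x₂ / 2) ≤ 1 := Real.exp_le_one_iff.mpr (by linarith)
  have b2 : Real.exp ((L - x₁) / 2) ≤ 1 := Real.exp_le_one_iff.mpr (by linarith)
  have b3 := Real.exp_pos (x₁ / 2)
  have b4 := Real.exp_pos ((L - x₂) / 2)
  linarith

/-- the linear input on the centre line, with the distances to the ends -/
theorem centre_aux {β : ℂ → ℂ} {R : ℝ} (h : ExtR β R) {a : ℝ} (ha : 0 < a) (ha1 : a < 1)
    {x₁ x₂ : ℝ} (h1 : Real.log (tau a) + 1 ≤ x₁) (h12 : x₁ ≤ x₂) (h2 : x₂ ≤ -1) :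
    2 * ∫ ξ in x₁..x₂, (1 - (Xf β a (pt ξ (π / 2))).re) ≤
      JJ β a + 64 + Real.sqrt (2 * JJ β a) * ((x₁ - Real.log (tau a)) - x₂) := by
  have hπ := Real.pi_pos
  obtain ⟨Φ, Φ', hd, hb, hX, hJ, hO⟩ := exists_Phi h.toExt ha ha1
  have hN := Pool.Agent.Helper67.EK.E1c h ha ha1 (x₁ := x₁) (x₂ := x₂) (by linarith) (by linarith)
  have hmem : ∀ ξ ∈ Icc x₁ x₂, pt ξ (π / 2) ∈ Rect x₁ x₂ := by
    intro ξ hξ
    refine ⟨?_, ?_⟩
    · simp only [mem_preimage, pt_re]; exact hξ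
    · simp only [mem_preimage, pt_im, mem_Icc]; constructor <;> linarith
  have hptc : Continuous fun ξ : ℝ => pt ξ (π / 2) := by unfold pt; fun_prop
  have hXc : ContinuousOn (fun ξ : ℝ => Xf β a (pt ξ (π / 2))) (Icc x₁ x₂) :=
    hN.an.continuousOn.comp hptc.continuousOn hmem
  have hkc : ContinuousOn (fun ξ : ℝ => kap a (pt ξ (π / 2))) (Icc x₁ x₂) := by
    have hk : ContinuousOn (kap a) (Rect x₁ x₂) := by
      apply ContinuousOn.div (by fun_prop) (by fun_prop)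
      intro ω hω
      exact mul_ne_zero (sq_add_tau_ne ha ha1 (by linarith) hω) (sq_add_one_ne (by linarith) hω)
    exact hk.comp hptc.continuousOn hmem
  have hXi : IntervalIntegrable (fun ξ : ℝ => (Xf β a (pt ξ (π / 2))).re) volume x₁ x₂ := by
    apply ContinuousOn.intervalIntegrable
    rw [uIcc_of_le h12]
    exact Complex.continuous_re.comp_continuousOn hXc
  have hki : IntervalIntegrable (fun ξ : ℝ => (kap a (pt ξ (π / 2))).re) volume x₁ x₂ := by
    apply ContinuousOn.intervalIntegrable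
    rw [uIcc_of_le h12]
    exact Complex.continuous_re.comp_continuousOn hkc
  -- fundamental theorem of calculus for `Re Φ`
  have hft : ∫ ξ in x₁..x₂, (2 * (Xf β a (pt ξ (π / 2))).re - 2 * (kap a (pt ξ (π / 2))).re) =
      (Φ (pt x₂ (π / 2))).re - (Φ (pt x₁ (π / 2))).re := by
    apply intervalIntegral.integral_eq_sub_of_hasDerivAt (f := fun ξ => (Φ (pt ξ (π / 2))).re)
    · intro ξ hξ
      rw [uIcc_of_le h12] at hξ
      have i1 : 0 < (pt ξ (π / 2)).im := by rw [pt_im]; linarith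
      have i2 : (pt ξ (π / 2)).im < π := by rw [pt_im]; linarith
      have h3 := (hd _ i1 i2).comp_of_eq ξ (hasDerivAt_pt ξ (π / 2)) rfl
      rw [mul_one, hX _ i1 i2 (by rw [pt_re]; linarith [hξ.1]) (by rw [pt_re]; linarith [hξ.2])] at h3
      have h4 := (Complex.reCLM.hasFDerivAt.comp_hasDerivAt ξ h3)
      have h5 : Complex.reCLM (2 * Xf β a (pt ξ (π / 2)) - 2 * kap a (pt ξ (π / 2))) =
          2 * (Xf β a (pt ξ (π / 2))).re - 2 * (kap a (pt ξ (π / 2))).re := by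
        simp
      rw [h5] at h4
      exact h4
    · exact (hXi.const_mul 2).sub (hki.const_mul 2)
  have hB0 : 0 ≤ Real.sqrt (2 * JJ β a) := Real.sqrt_nonneg _
  -- the two ends
  have hend2 : -(Real.sqrt (2 * JJ β a) * -x₂) ≤ (Φ (pt x₂ (π / 2))).re := by
    have h3 := horiz hd hb 0 x₂
    rw [hO, sub_zero, sub_zero, abs_of_nonpos (by linarith)] at h3
    have h4 := Complex.abs_re_le_norm (Φ (pt x₂ (π / 2)))
    have h5 := neg_abs_le (Φ (pt x₂ (π / 2))).re
    linarith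
  have hend1 : (Φ (pt x₁ (π / 2))).re ≤ JJ β a + Real.sqrt (2 * JJ β a) * (x₁ - Real.log (tau a)) := by
    have h3 := horiz hd hb (Real.log (tau a)) x₁
    rw [abs_of_nonneg (by linarith)] at h3
    have h4 := Complex.re_le_norm (Φ (pt x₁ (π / 2)) - Φ (pt (Real.log (tau a)) (π / 2)))
    rw [Complex.sub_re, hJ] at h4
    linarith
  have hkap : 2 * ∫ ξ in x₁..x₂, (1 - (kap a (pt ξ (π / 2))).re) ≤ 64 := by
    have h3 : ∫ ξ in x₁..x₂, (1 - (kap a (pt ξ (π / 2))).re) ≤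
        ∫ ξ in x₁..x₂, (12 * Real.exp (ξ / 2) + 4 * Real.exp ((Real.log (tau a) - ξ) / 2)) := by
      apply intervalIntegral.integral_mono_on h12
      · exact (intervalIntegrable_const).sub hki
      · exact (by fun_prop : Continuous fun ξ : ℝ => 12 * Real.exp (ξ / 2) +
          4 * Real.exp ((Real.log (tau a) - ξ) / 2)).intervalIntegrable _ _
      · intro ξ hξ
        exact kap_re ha ha1 (h1.trans hξ.1) (hξ.2.trans h2)
    have h4 := int_exp_half h1 h12 h2
    linarith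
  have hsplit : 2 * ∫ ξ in x₁..x₂, (1 - (Xf β a (pt ξ (π / 2))).re) =
      2 * (∫ ξ in x₁..x₂, (1 - (kap a (pt ξ (π / 2))).re)) -
        ∫ ξ in x₁..x₂, (2 * (Xf β a (pt ξ (π / 2))).re - 2 * (kap a (pt ξ (π / 2))).re) := by
    rw [← intervalIntegral.integral_const_mul, ← intervalIntegral.integral_const_mul,
      ← intervalIntegral.integral_sub ((intervalIntegrable_const.sub hki).const_mul 2)
        ((hXi.const_mul 2).sub (hki.const_mul 2))]
    congr 1
    funext ξ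
    ring
  rw [hsplit, hft]
  nlinarith

/-- EK3 (a): the linear input on the centre line -/
theorem centre_line {δ : ℝ} (hδ : 0 < δ) : ∃ C : ℝ, ∀ (β : ℂ → ℂ) (R a : ℝ), ExtR β R → 0 < a →
    a < 1 → ∀ x₁ x₂ : ℝ, Real.log (tau a) + 1 ≤ x₁ → x₁ ≤ x₂ → x₂ ≤ -1 →
    2 * ∫ ξ in x₁..x₂, (1 - (Xf β a (pt ξ (π / 2))).re) ≤
      (1 + δ) * Real.log (‖N β a‖ / (1 - a ^ 2)) + C := by
  refine ⟨96 + 2 / δ, fun β R a h ha ha1 x₁ x₂ h1 h12 h2 => ?_⟩
  have hπ := Real.pi_pos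
  set L := Real.log (tau a) with hL
  have h3 := centre_aux h ha ha1 (x₁ := L + 1) (x₂ := -1) (le_refl _) (by linarith) (le_refl _)
  have hJ := JJ_nonneg h.toExt ha ha1
  have h4 : Real.sqrt (2 * JJ β a) * ((L + 1 - L) - -1) ≤ δ * JJ β a + 2 / δ := by
    set B := Real.sqrt (2 * JJ β a) with hB
    have hB2 : B ^ 2 = 2 * JJ β a := Real.sq_sqrt (by linarith)
    have h7 : 0 ≤ (δ * B - 2) ^ 2 / (2 * δ) := by positivity
    have h8 : (δ * B - 2) ^ 2 / (2 * δ) = δ / 2 * B ^ 2 + 2 / δ - B * 2 := by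
      field_simp
      ring
    rw [h8, hB2] at h7
    linarith
  -- the rest of the centre line, by Koebe
  have hN := Pool.Agent.Helper67.EK.E1c h ha ha1 (x₁ := L + 1) (x₂ := -1) (by linarith)
    (by linarith)
  have hptc : Continuous fun ξ : ℝ => pt ξ (π / 2) := by unfold pt; fun_prop
  have hfc : ContinuousOn (fun ξ : ℝ => 1 - (Xf β a (pt ξ (π / 2))).re) (Icc (L + 1) (-1)) := by
    apply continuousOn_const.sub
    apply Complex.continuous_re.comp_continuousOn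
    apply hN.an.continuousOn.comp hptc.continuousOn
    intro ξ hξ
    refine ⟨?_, ?_⟩
    · simp only [mem_preimage, pt_re]; exact hξ
    · simp only [mem_preimage, pt_im, mem_Icc]; constructor <;> linarith
  have hii : ∀ u v : ℝ, L + 1 ≤ u → u ≤ v → v ≤ -1 →
      IntervalIntegrable (fun ξ : ℝ => 1 - (Xf β a (pt ξ (π / 2))).re) volume u v := by
    intro u v hu huv hv
    apply ContinuousOn.intervalIntegrable
    rw [uIcc_of_le huv]
    exact hfc.mono (Icc_subset_Icc hu hv)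
  have hpos : ∀ u v : ℝ, L + 1 ≤ u → u ≤ v → v ≤ -1 →
      -8 ≤ ∫ ξ in u..v, (1 - (Xf β a (pt ξ (π / 2))).re) := by
    intro u v hu huv hv
    have g1 : ∫ ξ in u..v, (-(4 * Real.exp ξ + 4 * Real.exp (L - ξ))) ≤
        ∫ ξ in u..v, (1 - (Xf β a (pt ξ (π / 2))).re) := by
      apply intervalIntegral.integral_mono_on huv
      · exact (by fun_prop : Continuous fun ξ : ℝ =>
          -(4 * Real.exp ξ + 4 * Real.exp (L - ξ))).intervalIntegrable _ _
      · exact hii u v hu huv hv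
      · intro ξ hξ
        have g2 := Pool.Agent.Helper84.EK.centre_err h.toExt ha ha1 (ξ := ξ) (hu.trans hξ.1)
          (hξ.2.trans hv)
        have g3 := Complex.re_le_norm (Xf β a (pt ξ (π / 2)))
        rw [← hL] at g2
        linarith
    have g4 : ∫ ξ in u..v, (-(4 * Real.exp ξ + 4 * Real.exp (L - ξ))) =
        (-(4 * Real.exp v) + 4 * Real.exp (L - v)) - (-(4 * Real.exp u) + 4 * Real.exp (L - u)) := by
      apply intervalIntegral.integral_eq_sub_of_hasDerivAt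
        (f := fun ξ : ℝ => -(4 * Real.exp ξ) + 4 * Real.exp (L - ξ))
      · intro ξ _
        have a1 := ((Real.hasDerivAt_exp ξ).const_mul 4).neg
        have a2 : HasDerivAt (fun ξ : ℝ => L - ξ) (-1) ξ := (hasDerivAt_id ξ).const_sub L
        have a3 := a1.add (a2.exp.const_mul 4)
        have a4 : -(4 * Real.exp ξ + 4 * Real.exp (L - ξ)) =
            -(4 * Real.exp ξ) + 4 * (Real.exp (L - ξ) * -1) := by ring
        rw [a4]
        exact a3
      · exact (by fun_prop : Continuous fun ξ : ℝ =>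
          -(4 * Real.exp ξ + 4 * Real.exp (L - ξ))).intervalIntegrable _ _
    have b1 : Real.exp v ≤ 1 := Real.exp_le_one_iff.mpr (by linarith)
    have b2 : Real.exp (L - u) ≤ 1 := Real.exp_le_one_iff.mpr (by linarith)
    have b3 := Real.exp_pos u
    have b4 := Real.exp_pos (L - v)
    rw [g4] at g1
    linarith
  have hs1 := intervalIntegral.integral_add_adjacent_intervals
    (hii (L + 1) x₁ (le_refl _) h1 (h12.trans h2)) (hii x₁ x₂ h1 h12 h2)
  have hs2 := intervalIntegral.integral_add_adjacent_intervals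
    (hii (L + 1) x₂ (le_refl _) (h1.trans h12) h2) (hii x₂ (-1) (h1.trans h12) h2 (le_refl _))
  have p1 := hpos (L + 1) x₁ (le_refl _) h1 (h12.trans h2)
  have p2 := hpos x₂ (-1) (h1.trans h12) h2 (le_refl _)
  have h11 : (1 + δ) * Real.log (‖N β a‖ / (1 - a ^ 2)) = JJ β a + δ * JJ β a := by
    rw [JJ]; ring
  rw [h11]
  linarith

end Pool.Agent.Helper79.EK3
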