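import Pool.Agent.Helper86.EK.E1b
import Pool.Agent.Helper39.EK.AreaForm

/-!
EK3 (a), part 1: the Bloch bound from the energy, and the function `log ((f - f a)/..)` in the strip.
-/

set_option autoImplicit false

open Complex MeasureTheory Metric Set Filter Topology
open scoped Real ENNReal ComplexConjugate NNReal

namespace Pool.Agent.Helper79.EK3

open Pool.Agent.Helper39.Area Pool.Agent.Helper39.EK Pool.Agent.Helper52.EK Pool.Agent.Helper86.EK

/-- polar coordinates for a continuous function on a disc around the origin -/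
theorem polar_ball {f : ℂ → ℝ} {R ρ : ℝ} (hρR : ρ < R) (hfc : ContinuousOn f (ball 0 R)) :
    ∫ z in ball (0:ℂ) ρ, f z =
      ∫ s in Ioo 0 ρ, ∫ θ in Ioo (-π) π, s * f ((s:ℂ) * Complex.exp (θ * I)) := by
  rw [← integral_indicator measurableSet_ball, ← Complex.integral_comp_polarCoord_symm]
  have h2 : ∫ p in polarCoord.target, p.1 • (ball (0:ℂ) ρ).indicator f
      (Complex.polarCoord.symm p) = ∫ p in Ioo 0 ρ ×ˢ Ioo (-π) π,
        p.1 * f ((p.1:ℂ) * Complex.exp (p.2 * I)) := by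
    have h3 : ∀ p ∈ polarCoord.target, p.1 • (ball (0:ℂ) ρ).indicator f
        (Complex.polarCoord.symm p) = (Ioo 0 ρ ×ˢ Ioo (-π) π).indicator
          (fun p => p.1 * f ((p.1:ℂ) * Complex.exp (p.2 * I))) p := by
      rintro ⟨r, θ⟩ ⟨hr, hθ⟩
      simp only [mem_Ioi] at hr hθ
      have h4 : Complex.polarCoord.symm (r, θ) = (r:ℂ) * Complex.exp (θ * I) := by
        rw [Complex.polarCoord_symm_apply, Complex.exp_mul_I, Complex.ofReal_cos,
          Complex.ofReal_sin]
      have h5 : ‖Complex.polarCoord.symm (r, θ)‖ = r := by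
        rw [h4, norm_mul, Complex.norm_exp_ofReal_mul_I, mul_one, Complex.norm_real,
          Real.norm_of_nonneg hr.le]
      by_cases hrρ : r < ρ
      · rw [indicator_of_mem (by rw [mem_ball, dist_zero_right, h5]; exact hrρ),
          indicator_of_mem (show (r, θ) ∈ Ioo 0 ρ ×ˢ Ioo (-π) π from ⟨⟨hr, hrρ⟩, hθ⟩), h4,
          smul_eq_mul]
      · rw [indicator_of_notMem (by rw [mem_ball, dist_zero_right, h5]; exact hrρ),
          indicator_of_notMem (fun h : (r, θ) ∈ Ioo 0 ρ ×ˢ Ioo (-π) π => hrρ h.1.2), smul_zero]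
    rw [setIntegral_congr_fun polarCoord.open_target.measurableSet h3,
      setIntegral_indicator (measurableSet_Ioo.prod measurableSet_Ioo)]
    congr 2
    apply inter_eq_right.2
    rintro ⟨r, θ⟩ ⟨hr, hθ⟩
    exact ⟨hr.1, hθ⟩
  rw [h2, Measure.volume_eq_prod, setIntegral_prod]
  have h6 : ContinuousOn (fun p : ℝ × ℝ => p.1 * f ((p.1:ℂ) * Complex.exp (p.2 * I)))
      (Icc 0 ρ ×ˢ Icc (-π) π) := by
    apply continuous_fst.continuousOn.mul
    apply hfc.comp (by fun_prop)
    rintro ⟨r, θ⟩ ⟨hr, hθ⟩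
    simp only [mem_ball, dist_zero_right, norm_mul, Complex.norm_exp_ofReal_mul_I, mul_one,
      Complex.norm_real]
    rw [Real.norm_of_nonneg hr.1]
    exact hr.2.trans_lt hρR
  have h7 := h6.integrableOn_compact (μ := (volume : Measure (ℝ × ℝ)))
    (isCompact_Icc.prod isCompact_Icc)
  rw [Measure.volume_eq_prod] at h7
  exact h7.mono_set (prod_mono Ioo_subset_Icc_self Ioo_subset_Icc_self)

/-- area mean value inequality at the origin -/
theorem mean_zero {E : ℂ → ℂ} {R r : ℝ} (hE : DifferentiableOn ℂ E (ball 0 R)) (hr : 0 < r)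
    (hrR : r < R) : π * r ^ 2 * ‖deriv E 0‖ ^ 2 ≤ ∫ z in ball (0:ℂ) r, ‖deriv E z‖ ^ 2 := by
  have hd : DifferentiableOn ℂ (deriv E) (ball 0 R) := hE.deriv isOpen_ball
  have hfc : ContinuousOn (fun z => ‖deriv E z‖ ^ 2) (ball 0 R) := (hd.continuousOn.norm).pow 2
  have hπ := Real.pi_pos
  rw [polar_ball hrR hfc]
  have h1 : ∀ s ∈ Ioo 0 r, 2 * π * s * ‖deriv E 0‖ ^ 2 ≤
      ∫ θ in Ioo (-π) π, s * ‖deriv E ((s:ℂ) * Complex.exp (θ * I))‖ ^ 2 := by
    intro s hs
    have h2 := parseval_deriv hE hs.1.le (hs.2.trans hrR)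
    have h3 : ‖deriv E 0‖ ^ 2 ≤ (1 / (2 * π)) * ∫ θ in (-π)..π,
        ‖deriv E ((s:ℂ) * Complex.exp (θ * I))‖ ^ 2 := by
      have h4 := h2.summable.sum_le_tsum (Finset.range 1) (fun n _ => by
        have := hs.1
        positivity)
      rw [h2.tsum_eq, Finset.sum_range_one] at h4
      have h5 : ‖((0:ℕ):ℂ) + 1‖ = 1 := by simp
      simpa using h4
    have h6 : (∫ θ in Ioo (-π) π, s * ‖deriv E ((s:ℂ) * Complex.exp (θ * I))‖ ^ 2) =
        s * ∫ θ in (-π)..π, ‖deriv E ((s:ℂ) * Complex.exp (θ * I))‖ ^ 2 := by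
      rw [integral_const_mul, intervalIntegral.integral_of_le (by linarith),
        integral_Ioc_eq_integral_Ioo]
    rw [h6]
    have h7 : (∫ θ in (-π)..π, ‖deriv E ((s:ℂ) * Complex.exp (θ * I))‖ ^ 2) =
        2 * π * ((1 / (2 * π)) * ∫ θ in (-π)..π,
        ‖deriv E ((s:ℂ) * Complex.exp (θ * I))‖ ^ 2) := by
      rw [← mul_assoc, mul_one_div_cancel (by positivity), one_mul]
    rw [h7]
    have h8 : 0 ≤ s * (2 * π) := by have := hs.1; positivity
    nlinarith [mul_le_mul_of_nonneg_left h3 h8]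
  have h9 : ∫ s in Ioo 0 r, 2 * π * s * ‖deriv E 0‖ ^ 2 = π * r ^ 2 * ‖deriv E 0‖ ^ 2 := by
    rw [← integral_Ioc_eq_integral_Ioo, ← intervalIntegral.integral_of_le hr.le,
      intervalIntegral.integral_mul_const, intervalIntegral.integral_const_mul, integral_id]
    ring
  rw [← h9]
  apply setIntegral_mono_on _ _ measurableSet_Ioo h1
  · exact (by fun_prop : Continuous fun s : ℝ => 2 * π * s * ‖deriv E 0‖ ^ 2).continuousOn.integrableOn_compact isCompact_Icc |>.mono_set Ioo_subset_Icc_self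
  · have hc2 : ContinuousOn (fun p : ℝ × ℝ => p.1 * ‖deriv E ((p.1:ℂ) * Complex.exp (p.2 * I))‖ ^ 2)
        (Icc 0 r ×ˢ Icc (-π) π) := by
      apply continuous_fst.continuousOn.mul
      apply hfc.comp (by fun_prop)
      rintro ⟨s, θ⟩ ⟨hs, hθ⟩
      simp only [mem_ball, dist_zero_right, norm_mul, Complex.norm_exp_ofReal_mul_I, mul_one,
        Complex.norm_real]
      rw [Real.norm_of_nonneg hs.1]
      exact hs.2.trans_lt hrR
    have h7 := hc2.integrableOn_compact (μ := (volume : Measure (ℝ × ℝ)))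
      (isCompact_Icc.prod isCompact_Icc)
    have h10 : IntegrableOn (fun p : ℝ × ℝ => p.1 * ‖deriv E ((p.1:ℂ) * Complex.exp (p.2 * I))‖ ^ 2)
        (Ioo 0 r ×ˢ Ioo (-π) π) ((volume : Measure ℝ).prod volume) := by
      rw [Measure.volume_eq_prod] at h7
      exact h7.mono_set (prod_mono Ioo_subset_Icc_self Ioo_subset_Icc_self)
    rw [IntegrableOn, ← Measure.prod_restrict] at h10
    exact h10.integral_prod_left

/-- Bloch bound: the derivative of a function of finite energy -/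
theorem bloch {E : ℂ → ℂ} {J : ℝ} (hE : DifferentiableOn ℂ E (ball 0 1))
    (hJ : ∀ ρ : ℝ, 0 < ρ → ρ < 1 → ∫ z in ball (0:ℂ) ρ, ‖deriv E z‖ ^ 2 ≤ 2 * π * J)
    {z : ℂ} (hz : ‖z‖ < 1) : ‖deriv E z‖ * (1 - ‖z‖) ≤ Real.sqrt (2 * J) := by
  have hd : DifferentiableOn ℂ (deriv E) (ball 0 1) := hE.deriv isOpen_ball
  have hπ := Real.pi_pos
  have key : ∀ r : ℝ, 0 < r → r < 1 - ‖z‖ → r ^ 2 * ‖deriv E z‖ ^ 2 ≤ 2 * J := by
    intro r hr hr1
    set E₁ : ℂ → ℂ := fun w => E (z + w) with hE₁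
    have hsub : ∀ w ∈ ball (0:ℂ) (1 - ‖z‖), z + w ∈ ball (0:ℂ) 1 := by
      intro w hw
      rw [mem_ball, dist_zero_right] at hw ⊢
      have := norm_add_le z w
      linarith
    have hd1 : ∀ w ∈ ball (0:ℂ) (1 - ‖z‖), HasDerivAt E₁ (deriv E (z + w)) w := by
      intro w hw
      have h1 := (hE.differentiableAt (isOpen_ball.mem_nhds (hsub w hw))).hasDerivAt
      have h2 : HasDerivAt (fun w : ℂ => z + w) 1 w := (hasDerivAt_id w).const_add z
      have h3 := HasDerivAt.comp w h1 h2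
      rw [mul_one] at h3
      exact h3
    have hE1 : DifferentiableOn ℂ E₁ (ball 0 (1 - ‖z‖)) := fun w hw =>
      (hd1 w hw).differentiableAt.differentiableWithinAt
    have h3 := mean_zero hE1 hr hr1
    have h0 : (0:ℂ) ∈ ball (0:ℂ) (1 - ‖z‖) := mem_ball_self (by linarith)
    rw [(hd1 0 h0).deriv, add_zero] at h3
    have h4 : ∫ w in ball (0:ℂ) r, ‖deriv E₁ w‖ ^ 2 = ∫ w in ball (0:ℂ) r, ‖deriv E (z + w)‖ ^ 2 := by
      apply setIntegral_congr_fun measurableSet_ball
      intro w hw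
      simp only
      rw [(hd1 w (ball_subset_ball hr1.le hw)).deriv]
    have h5 : ∫ w in ball (0:ℂ) r, ‖deriv E (z + w)‖ ^ 2 = ∫ w in ball z r, ‖deriv E w‖ ^ 2 := by
      rw [← integral_indicator measurableSet_ball, ← integral_indicator measurableSet_ball,
        ← integral_add_left_eq_self (μ := (volume : Measure ℂ))
          ((ball z r).indicator fun w => ‖deriv E w‖ ^ 2) z]
      congr 1
      funext w
      by_cases hw : w ∈ ball (0:ℂ) r
      · rw [indicator_of_mem hw, indicator_of_mem]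
        rw [mem_ball, dist_eq_norm, add_sub_cancel_left]
        rwa [mem_ball, dist_zero_right] at hw
      · rw [indicator_of_notMem hw, indicator_of_notMem]
        rw [mem_ball, dist_eq_norm, add_sub_cancel_left]
        rwa [mem_ball, dist_zero_right] at hw
    have hρ : ‖z‖ + r < 1 := by linarith
    have hρ0 : 0 < ‖z‖ + r := by have := norm_nonneg z; linarith
    have h6 : ∫ w in ball z r, ‖deriv E w‖ ^ 2 ≤ ∫ w in ball (0:ℂ) (‖z‖ + r), ‖deriv E w‖ ^ 2 := by
      apply setIntegral_mono_set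
      · have hc : ContinuousOn (fun w => ‖deriv E w‖ ^ 2) (closedBall 0 (‖z‖ + r)) :=
          (hd.continuousOn.norm.pow 2).mono (closedBall_subset_ball hρ)
        exact (hc.integrableOn_compact (isCompact_closedBall _ _)).mono_set ball_subset_closedBall
      · exact Eventually.of_forall fun w => by positivity
      · apply LE.le.eventuallyLE
        intro w hw
        rw [mem_ball, dist_zero_right]
        rw [mem_ball, dist_eq_norm] at hw
        have := norm_add_le z (w - z)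
        rw [add_sub_cancel] at this
        linarith
    have h7 := hJ _ hρ0 hρ
    rw [h4, h5] at h3
    have h8 : π * (r ^ 2 * ‖deriv E z‖ ^ 2) ≤ π * (2 * J) := by nlinarith
    exact le_of_mul_le_mul_left h8 hπ
  have hlim : (1 - ‖z‖) ^ 2 * ‖deriv E z‖ ^ 2 ≤ 2 * J := by
    have h1 : Tendsto (fun r : ℝ => r ^ 2 * ‖deriv E z‖ ^ 2) (𝓝[<] (1 - ‖z‖))
        (𝓝 ((1 - ‖z‖) ^ 2 * ‖deriv E z‖ ^ 2)) := by
      have : Continuous fun r : ℝ => r ^ 2 * ‖deriv E z‖ ^ 2 := by fun_prop
      exact (this.tendsto _).mono_left nhdsWithin_le_nhds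
    apply le_of_tendsto h1
    have h2 : Ioo 0 (1 - ‖z‖) ∈ 𝓝[<] (1 - ‖z‖) := Ioo_mem_nhdsLT (by linarith)
    filter_upwards [h2] with r hr
    exact key r hr.1 hr.2
  apply Real.le_sqrt_of_sq_le
  nlinarith

end Pool.Agent.Helper79.EK3
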