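import Pool.Agent.Helper79.EK3.Bloch

/-!
EK3 (a), part 2: the function `Φ = log ((f - f a)/((1/z - 1/a)(1 - a z)))` in the strip: values at the
two ends of the centre line and the size of its derivative.
-/

set_option autoImplicit false

open Complex MeasureTheory Metric Set Filter Topology
open scoped Real ENNReal ComplexConjugate NNReal

namespace Pool.Agent.Helper79.EK3

open Pool.Agent.Helper39.Area Pool.Agent.Helper39.EK Pool.Agent.Helper52.EK Pool.Agent.Helper86.EK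

/-- the right side of the energy inequality, divided by `2 π` -/
noncomputable def JJ (β : ℂ → ℂ) (a : ℝ) : ℝ := Real.log (‖N β a‖ / (1 - a ^ 2))

theorem JJ_nonneg {β : ℂ → ℂ} (h : Ext β) {a : ℝ} (ha : 0 < a) (ha1 : a < 1) : 0 ≤ JJ β a := by
  have h1 : (0:ℝ) < 1 - a ^ 2 := by nlinarith
  apply Real.log_nonneg
  rw [le_div_iff₀ h1, one_mul]
  have h2 := N_ge h (z := (a:ℂ)) (by rw [Complex.norm_real, Real.norm_of_nonneg ha.le]; exact ha1)
  rwa [Complex.norm_real, Real.norm_of_nonneg ha.le] at h2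

theorem exp_im_pos {ω : ℂ} (h0 : 0 < ω.im) (h1 : ω.im < π) : 0 < (Complex.exp ω).im := by
  rw [Complex.exp_im]
  exact mul_pos (Real.exp_pos _) (Real.sin_pos_of_pos_of_lt_pi h0 h1)

theorem exp_ne_neg_I' {ω : ℂ} (h0 : 0 < ω.im) (h1 : ω.im < π) : I + Complex.exp ω ≠ 0 := by
  intro h
  have h3 := exp_im_pos h0 h1
  have h4 := congrArg Complex.im h
  simp only [Complex.add_im, Complex.I_im, Complex.zero_im] at h4
  linarith

/-- hyperbolic metrics: `|zd| = (1 - |z|²) / (2 sin η)` -/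
theorem norm_zd {ω : ℂ} (h0 : 0 < ω.im) (h1 : ω.im < π) :
    ‖zd ω‖ * (2 * Real.sin ω.im) = 1 - ‖zf ω‖ ^ 2 := by
  have hne := exp_ne_neg_I' h0 h1
  have hn : 0 < ‖I + Complex.exp ω‖ := norm_pos_iff.mpr hne
  have hZ : ‖Complex.exp ω‖ = Real.exp ω.re := Complex.norm_exp ω
  have h2 : ‖zd ω‖ = 2 * Real.exp ω.re / ‖I + Complex.exp ω‖ ^ 2 := by
    rw [zd, norm_div, norm_pow, norm_mul, norm_mul, hZ, add_comm (Complex.exp ω) I]
    simp
  have h3 : ‖I + Complex.exp ω‖ ^ 2 - ‖I - Complex.exp ω‖ ^ 2 = 4 * (Complex.exp ω).im := by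
    rw [← Complex.normSq_eq_norm_sq, ← Complex.normSq_eq_norm_sq, Complex.normSq_apply,
      Complex.normSq_apply]
    simp only [Complex.sub_re, Complex.add_re, Complex.sub_im, Complex.add_im, Complex.I_re,
      Complex.I_im]
    ring
  rw [h2, zf, norm_div, div_pow]
  rw [Complex.exp_im] at h3
  have h4 : (1:ℝ) - ‖I - Complex.exp ω‖ ^ 2 / ‖I + Complex.exp ω‖ ^ 2 =
      (‖I + Complex.exp ω‖ ^ 2 - ‖I - Complex.exp ω‖ ^ 2) / ‖I + Complex.exp ω‖ ^ 2 := by
    field_simp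
  rw [h4, h3]
  ring

theorem exists_Phi {β : ℂ → ℂ} (h : Ext β) {a : ℝ} (ha : 0 < a) (ha1 : a < 1) :
    ∃ Φ Φ' : ℂ → ℂ, (∀ ω : ℂ, 0 < ω.im → ω.im < π → HasDerivAt Φ (Φ' ω) ω) ∧
      (∀ ω : ℂ, 0 < ω.im → ω.im < π → ‖Φ' ω‖ * Real.sin ω.im ≤ Real.sqrt (2 * JJ β a)) ∧
      (∀ ω : ℂ, 0 < ω.im → ω.im < π → Real.log (tau a) < ω.re → ω.re < 0 →
        Φ' ω = 2 * Xf β a ω - 2 * kap a ω) ∧
      (Φ (pt (Real.log (tau a)) (π / 2))).re = JJ β a ∧ Φ (pt 0 (π / 2)) = 0 := by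
  have haC : ((a:ℝ):ℂ) ∈ ball (0:ℂ) 1 := by
    rw [mem_ball, dist_zero_right, Complex.norm_real, Real.norm_of_nonneg ha.le]
    exact ha1
  have ha0 : ((a:ℝ):ℂ) ≠ 0 := by exact_mod_cast ha.ne'
  obtain ⟨F, hF0, hF, hexp⟩ := exists_log h haC
  have hre : ∀ z ∈ ball (0:ℂ) 1, 0 < (1 - (a:ℂ) * z).re := by
    intro z hz
    rw [mem_ball, dist_zero_right] at hz
    have h1 : ((a:ℂ) * z).re ≤ ‖(a:ℂ) * z‖ := Complex.re_le_norm _
    rw [norm_mul, Complex.norm_real, Real.norm_of_nonneg ha.le] at h1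
    rw [Complex.sub_re, Complex.one_re]
    nlinarith [norm_nonneg z]
  have hsl : ∀ z ∈ ball (0:ℂ) 1, (1 - (a:ℂ) * z) ∈ slitPlane := fun z hz => Or.inl (hre z hz)
  set D : ℂ → ℂ := fun z => F z - Complex.log (1 - (a:ℂ) * z) with hD
  set D' : ℂ → ℂ := fun z => deriv F z + (a:ℂ) / (1 - (a:ℂ) * z) with hD'
  have hder : ∀ z ∈ ball (0:ℂ) 1, HasDerivAt D (D' z) z := by
    intro z hz
    have h1 : HasDerivAt (fun z : ℂ => 1 - (a:ℂ) * z) (-(a:ℂ)) z := by
      have := ((hasDerivAt_id z).const_mul (a:ℂ)).const_sub 1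
      simpa using this
    have h2 := h1.clog (hsl z hz)
    have h3 := (hF z hz).sub h2
    have h4 : D' z = deriv (qq β a) z / qq β a z - -(a:ℂ) / (1 - (a:ℂ) * z) := by
      simp only [hD']
      rw [(hF z hz).deriv]
      ring
    rw [h4]
    exact h3
  have hDd : DifferentiableOn ℂ D (ball 0 1) := fun z hz =>
    (hder z hz).differentiableAt.differentiableWithinAt
  have hJ : - Real.log (1 - ‖((a:ℝ):ℂ)‖ ^ 2) + (F a).re = JJ β a := by
    have h5 : ‖N β (a:ℂ)‖ = Real.exp (F a).re := by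
      rw [← qq_self, ← hexp _ haC, Complex.norm_exp]
    have h6 : (0:ℝ) < 1 - a ^ 2 := by nlinarith
    rw [JJ, h5, Real.log_div (Real.exp_pos _).ne' h6.ne', Real.log_exp, Complex.norm_real,
      Real.norm_of_nonneg ha.le]
    ring
  have hen : ∀ ρ : ℝ, 0 < ρ → ρ < 1 → ∫ z in ball (0:ℂ) ρ, ‖deriv D z‖ ^ 2 ≤ 2 * π * JJ β a := by
    intro ρ h0 h1
    have h2 := energy h h0 h1 haC ha0 hF hF0 hexp
    rw [hJ] at h2
    refine le_trans (le_of_eq ?_) h2
    apply setIntegral_congr_fun measurableSet_ball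
    intro z hz
    simp only
    rw [(hder z (ball_subset_ball h1.le hz)).deriv, hD', Complex.conj_ofReal]
  have hz1 : ∀ ω : ℂ, 0 < ω.im → ω.im < π → zf ω ∈ ball (0:ℂ) 1 := by
    intro ω h0 h1
    rw [mem_ball, dist_zero_right]
    exact norm_zf_lt (exp_im_pos h0 h1)
  refine ⟨fun ω => D (zf ω), fun ω => D' (zf ω) * zd ω, ?_, ?_, ?_, ?_, ?_⟩
  · intro ω h0 h1
    exact (hder _ (hz1 ω h0 h1)).comp ω (hasDerivAt_zf (exp_ne_neg_I' h0 h1))
  · intro ω h0 h1
    have h2 := hz1 ω h0 h1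
    have h3 : ‖zf ω‖ < 1 := by simpa using h2
    have h4 := bloch hDd hen h3
    rw [(hder _ h2).deriv] at h4
    have h5 := norm_zd h0 h1
    have hs : 0 < Real.sin ω.im := Real.sin_pos_of_pos_of_lt_pi h0 h1
    simp only
    rw [norm_mul]
    have h6 : ‖zd ω‖ * Real.sin ω.im = (1 - ‖zf ω‖) * (1 + ‖zf ω‖) / 2 := by
      linear_combination (1 / 2) * h5
    calc ‖D' (zf ω)‖ * ‖zd ω‖ * Real.sin ω.im = ‖D' (zf ω)‖ * (‖zd ω‖ * Real.sin ω.im) := by ring
      _ = (‖D' (zf ω)‖ * (1 - ‖zf ω‖)) * ((1 + ‖zf ω‖) / 2) := by rw [h6]; ring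
      _ ≤ (‖D' (zf ω)‖ * (1 - ‖zf ω‖)) * 1 := by
          apply mul_le_mul_of_nonneg_left (by linarith)
          exact mul_nonneg (norm_nonneg _) (by linarith)
      _ ≤ _ := by rw [mul_one]; exact h4
  · intro ω h0 h1 h2 h3
    have hR : ω ∈ Rect ω.re ω.re := ⟨⟨le_refl _, le_refl _⟩, ⟨h0.le, h1.le⟩⟩
    have hzb := hz1 ω h0 h1
    have hz0 : zf ω ≠ 0 := zf_ne_zero h3 hR
    have hza : zf ω ≠ a := zf_ne_a ha ha1 h2 hR
    rw [← zd_Dd ha ha1 h2 h3 hR, Dd, dphi_div h haC hzb ha0 hz0 hza, hD']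
    simp only
    rw [(hF _ hzb).deriv]
    ring
  · have h1 : zf (pt (Real.log (tau a)) (π / 2)) = a := by
      have h2 : Complex.exp (pt (Real.log (tau a)) (π / 2)) = (tau a : ℂ) * I := by
        rw [pt, Complex.exp_add, ← Complex.ofReal_exp, Real.exp_log (tau_pos ha ha1)]
        congr 1
        push_cast
        exact Complex.exp_pi_div_two_mul_I
      rw [zf, h2, tau]
      have h3 : (1 + (a:ℂ)) ≠ 0 := by
        have : ((1 + a : ℝ) : ℂ) ≠ 0 := by exact_mod_cast (by positivity)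
        simpa using this
      have h4 : (I:ℂ) ≠ 0 := I_ne_zero
      push_cast
      have h5 : I + (1 - (a:ℂ)) / (1 + a) * I = 2 / (1 + a) * I := by field_simp; ring
      have h6 : I - (1 - (a:ℂ)) / (1 + a) * I = 2 * a / (1 + a) * I := by field_simp; ring
      rw [h5, h6]
      field_simp
    simp only [h1]
    rw [← hJ, hD]
    simp only
    have h7 : (1 - (a:ℂ) * a) = ((1 - a ^ 2 : ℝ) : ℂ) := by push_cast; ring
    rw [h7, ← Complex.ofReal_log (by nlinarith), Complex.sub_re, Complex.ofReal_re,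
      Complex.norm_real, Real.norm_of_nonneg ha.le]
    ring
  · have h1 : zf (pt 0 (π / 2)) = 0 := by
      have h2 : Complex.exp (pt 0 (π / 2)) = I := by
        rw [pt]
        push_cast
        rw [zero_add]
        exact Complex.exp_pi_div_two_mul_I
      rw [zf, h2, sub_self, zero_div]
    simp only [h1]
    rw [hD]
    simp [hF0]

end Pool.Agent.Helper79.EK3
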